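import Mathlib

set_option autoImplicit false
open Set
open scoped ContDiff

namespace Pool.Agent.Results.MP_3d7355_an.Septic

/-- The Laplacian in the two variables `(t, y)`. -/
noncomputable def lap (u : ℝ → ℝ → ℝ) (t y : ℝ) : ℝ :=
  iteratedDeriv 2 (fun s => u s y) t + iteratedDeriv 2 (fun z => u t z) y

lemma compare {U V P Q U' V' P' Q' : ℝ → ℝ} (hU : ∀ r, HasDerivAt U (U' r) r)
    (hV : ∀ r, HasDerivAt V (V' r) r) (hP : ∀ r, HasDerivAt P (P' r) r)
    (hQ : ∀ r, HasDerivAt Q (Q' r) r) (hw : ∀ r, 0 < r → 0 < U r - V r)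
    (h1 : ∀ r, 0 ≤ U' r) (h2 : ∀ r, 0 ≤ V' r)
    (h3 : ∀ r, 0 < r → 0 ≤ (U r - V r) * P' r - U' r * (P r - Q r))
    (h4 : ∀ r, 0 < r → 0 ≤ (U r - V r) * Q' r - V' r * (P r - Q r))
    {t s : ℝ} (ht : 0 < t) (hts : t ≤ s) (h : U t = V s) : P t ≤ Q s := by
  have mU : Monotone U := monotone_of_hasDerivAt_nonneg hU h1
  have mV : Monotone V := monotone_of_hasDerivAt_nonneg hV h2
  have hd : ∀ r, 0 < r → HasDerivAt (fun r => P r - (U r - U t) / (U r - V r) * (P r - Q r))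
      (((V s - V r) * ((U r - V r) * P' r - U' r * (P r - Q r)) +
        (U r - U t) * ((U r - V r) * Q' r - V' r * (P r - Q r))) / (U r - V r) ^ 2) r := by
    intro r hr
    have := (hw r hr).ne'
    refine ((hP r).sub (((((hU r).sub_const (U t)).div ((hU r).sub (hV r)) this)).mul
      ((hP r).sub (hQ r)))).congr_deriv ?_
    simp only [Pi.sub_apply, Pi.div_apply, ← h]
    field_simp
    ring
  have hm := monotoneOn_of_hasDerivWithinAt_nonneg (convex_Icc t s)
    (fun r hr => (hd r (ht.trans_le hr.1)).continuousAt.continuousWithinAt)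
    (fun r hr => (hd r (ht.trans_le (interior_subset hr).1)).hasDerivWithinAt)
    (fun r hr => by
      have hr := interior_subset hr
      have r0 := ht.trans_le hr.1
      exact div_nonneg (add_nonneg (mul_nonneg (sub_nonneg.2 (mV hr.2)) (h3 r r0))
        (mul_nonneg (sub_nonneg.2 (mU hr.1)) (h4 r r0))) (sq_nonneg _))
  have := hm ⟨le_rfl, hts⟩ ⟨hts, le_rfl⟩ hts
  simp only [sub_self, zero_div, zero_mul, sub_zero] at this
  rw [h, div_self (hw s (ht.trans_le hts)).ne'] at this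
  linarith

def p (a b c d t y : ℝ) : ℝ := a * t * y ^ 6 + b * t ^ 3 * y ^ 4 + c * t ^ 5 * y ^ 2 + d * t ^ 7

lemma poly7 (a b c d r : ℝ) : HasDerivAt (fun t => a * t + b * t ^ 3 + c * t ^ 5 + d * t ^ 7)
    (a + 3 * b * r ^ 2 + 5 * c * r ^ 4 + 7 * d * r ^ 6) r := by
  refine (((((hasDerivAt_id r).const_mul a).add ((hasDerivAt_pow 3 r).const_mul b)).add
    ((hasDerivAt_pow 5 r).const_mul c)).add ((hasDerivAt_pow 7 r).const_mul d)).congr_deriv ?_
  norm_num; ring

lemma poly6 (e a b c r : ℝ) : HasDerivAt (fun t => e + a * t ^ 2 + b * t ^ 4 + c * t ^ 6)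
    (2 * a * r + 4 * b * r ^ 3 + 6 * c * r ^ 5) r := by
  refine (((((hasDerivAt_pow 2 r).const_mul a).const_add e).add
    ((hasDerivAt_pow 4 r).const_mul b)).add ((hasDerivAt_pow 6 r).const_mul c)).congr_deriv ?_
  norm_num; ring

lemma p_dt (a b c d y r : ℝ) : HasDerivAt (fun t => p a b c d t y)
    (a * y ^ 6 + 3 * (b * y ^ 4) * r ^ 2 + 5 * (c * y ^ 2) * r ^ 4 + 7 * d * r ^ 6) r := by
  refine (poly7 (a * y ^ 6) (b * y ^ 4) (c * y ^ 2) d r).congr_of_eventuallyEq
    (Filter.Eventually.of_forall fun t => ?_)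
  simp only [p]; ring

lemma lap_p (a b c d t y : ℝ) : lap (p a b c d) t y =
    (6 * b + 30 * a) * y ^ 4 * t + (20 * c + 12 * b) * y ^ 2 * t ^ 3 +
      (42 * d + 2 * c) * t ^ 5 + 0 * t ^ 7 := by
  have h1 : deriv (fun s => p a b c d s y) = fun r => a * y ^ 6 + 3 * (b * y ^ 4) * r ^ 2 +
      5 * (c * y ^ 2) * r ^ 4 + 7 * d * r ^ 6 := funext fun r => (p_dt a b c d y r).deriv
  have h2 : (fun z => p a b c d t z) = fun z => d * t ^ 7 + c * t ^ 5 * z ^ 2 +
      b * t ^ 3 * z ^ 4 + a * t * z ^ 6 := funext fun z => by simp only [p]; ring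
  have h3 : deriv (fun z => p a b c d t z) = fun z => 2 * (c * t ^ 5) * z +
      4 * (b * t ^ 3) * z ^ 3 + 6 * (a * t) * z ^ 5 + 0 * z ^ 7 := funext fun z => by
    rw [h2, (poly6 _ _ _ _ z).deriv]; ring
  simp only [lap, iteratedDeriv_succ, iteratedDeriv_zero]
  rw [h1, h3, (poly6 _ _ _ _ t).deriv, (poly7 _ _ _ _ y).deriv]
  ring

lemma quad {a b c X Y : ℝ} (ha : 0 < a) (h : b ^ 2 ≤ 4 * a * c) :
    0 ≤ a * Y ^ 2 - b * X * Y + c * X ^ 2 := by
  nlinarith [sq_nonneg (2 * a * Y - b * X), mul_nonneg (sub_nonneg.2 h) (sq_nonneg X)]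

theorem result : ∃ u v : ℝ → ℝ → ℝ,
    ContDiff ℝ ∞ (fun x : ℝ × ℝ => u x.1 x.2) ∧ ContDiff ℝ ∞ (fun x : ℝ × ℝ => v x.1 x.2) ∧
    (∀ t y, 0 < t → t < 1 → |y| < 1 →
      v t y < u t y ∧ 0 < u t y ∧ 0 < v t y ∧ 0 < deriv (fun s => u s y) t) ∧
    (∀ y, |y| < 1 → u 0 y = 0) ∧
    (∀ t s y, 0 < t → t ≤ s → s < 1 → |y| < 1 → u t y = v s y → lap u t y ≤ lap v s y) ∧
    deriv (fun s => u s 0) 0 = 0 ∧
    (u 0 0 = 0 ∧ ∃ k, iteratedDeriv k (fun t => u t 0) 0 ≠ 0) ∧
    (v 0 0 = 0 ∧ ∃ k, iteratedDeriv k (fun t => v t 0) 0 ≠ 0) := by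
  have hw : ∀ y r : ℝ, 0 < r → 0 < p 20000 (-720) 180 3 r y - p 19900 (-712) 174 2 r y := by
    intro y r hr
    have := mul_nonneg (mul_nonneg hr.le (sq_nonneg y))
      (quad (a := 100) (b := 8) (c := 6) (X := r ^ 2) (Y := y ^ 2) (by norm_num) (by norm_num))
    have h := pow_pos hr 7
    simp only [p]; nlinarith
  have hk : ∀ a b c d : ℝ, d ≠ 0 → ∃ k, iteratedDeriv k (fun t => p a b c d t 0) 0 ≠ 0 := by
    intro a b c d hd
    have : (fun t => p a b c d t 0) = fun t => d * t ^ 7 := funext fun t => by simp [p]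
    refine ⟨7, ?_⟩
    rw [this, iteratedDeriv_const_mul_field, iteratedDeriv_pow]
    simp [hd]
  refine ⟨p 20000 (-720) 180 3, p 19900 (-712) 174 2, by unfold p; fun_prop, by unfold p; fun_prop,
    fun t y ht _ _ => ?_, fun y _ => by simp [p], fun t s y ht hts _ _ h => ?_, ?_,
    ⟨by simp [p], hk _ _ _ _ (by norm_num)⟩, ⟨by simp [p], hk _ _ _ _ (by norm_num)⟩⟩
  · have h1 := hw y t ht
    have h2 : 0 < p 19900 (-712) 174 2 t y := by
      have := mul_nonneg (mul_nonneg ht.le (sq_nonneg y)) (quad (a := 19900) (b := 712) (c := 174)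
        (X := t ^ 2) (Y := y ^ 2) (by norm_num) (by norm_num))
      have h := pow_pos ht 7
      simp only [p]; nlinarith
    refine ⟨by linarith, by linarith, h2, ?_⟩
    rw [(p_dt _ _ _ _ y t).deriv]
    have := mul_nonneg (sq_nonneg y) (quad (a := 20000) (b := 2160) (c := 900)
      (X := t ^ 2) (Y := y ^ 2) (by norm_num) (by norm_num))
    have h := pow_pos ht 6
    nlinarith
  · rw [lap_p, lap_p]
    refine compare (p_dt _ _ _ _ y) (p_dt _ _ _ _ y) (poly7 _ _ _ _) (poly7 _ _ _ _) (hw y)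
      (fun r => ?_) (fun r => ?_) (fun r hr => ?_) (fun r hr => ?_) ht hts h
    · have := mul_nonneg (sq_nonneg y) (quad (a := 20000) (b := 2160) (c := 900)
        (X := r ^ 2) (Y := y ^ 2) (by norm_num) (by norm_num))
      have h : 0 ≤ r ^ 6 := by positivity
      nlinarith
    · have := mul_nonneg (sq_nonneg y) (quad (a := 19900) (b := 2136) (c := 870)
        (X := r ^ 2) (Y := y ^ 2) (by norm_num) (by norm_num))
      have h : 0 ≤ r ^ 6 := by positivity
      nlinarith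
    · have a := mul_nonneg (show 0 ≤ r * y ^ 6 by positivity) (quad (a := 528000) (b := 381120)
        (c := 253080) (X := r ^ 2) (Y := y ^ 2) (by norm_num) (by norm_num))
      have b := mul_nonneg (show 0 ≤ r ^ 7 by positivity) (quad (a := 518568) (b := 49644)
        (c := 1296) (X := r ^ 2) (Y := y ^ 2) (by norm_num) (by norm_num))
      refine (add_nonneg a b).trans (le_of_eq ?_)
      simp only [p]; ring
    · have a := mul_nonneg (show 0 ≤ r * y ^ 6 by positivity) (quad (a := 528000) (b := 433152)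
        (c := 302328) (X := r ^ 2) (Y := y ^ 2) (by norm_num) (by norm_num))
      have b := mul_nonneg (show 0 ≤ r ^ 7 by positivity) (quad (a := 537432) (b := 49548)
        (c := 1404) (X := r ^ 2) (Y := y ^ 2) (by norm_num) (by norm_num))
      refine (add_nonneg a b).trans (le_of_eq ?_)
      simp only [p]; ring
  · rw [(p_dt _ _ _ _ 0 0).deriv]; simp

end Pool.Agent.Results.MP_3d7355_an.Septic
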